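import Mathlib

/-!
Base file of PROJECT PCF (MP_cab741_co): proper conflict-free list colourings of all graphs with lists of size
degree + small. Rosenfeld counting of total colourings of the high vertices, greedy completion.
-/

set_option autoImplicit false
set_option linter.unusedSectionVars false

namespace Pool.Agent.Helper60.PCF

open Finset

variable {V α : Type} [Fintype V] [DecidableEq V] [DecidableEq α]

/-- some colour occurs exactly once on `e` -/
def HasUniq (e : Finset V) (φ : V → α) : Prop := ∃ z, #(e.filter fun x => φ x = z) = 1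

/-- `φ` on `S`, the default colour `d` elsewhere -/
def res (d : α) (S : Finset V) (φ : V → α) : V → α := fun v => if v ∈ S then φ v else d

/-- `C S` is a family of colourings of `S` (extended by the default colour `d`), closed under restriction -/
structure Fam (d : α) (C : Finset V → Finset (V → α)) : Prop where
  out : ∀ S φ, φ ∈ C S → ∀ v, v ∉ S → φ v = d
  her : ∀ S S' φ, S' ⊆ S → φ ∈ C S → res d S' φ ∈ C S'

/-- every vertex of `e` has on average at least `b` extensions (inside `S₀`) -/
def Grow (C : Finset V → Finset (V → α)) (e S₀ : Finset V) (b : ℝ) : Prop :=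
  ∀ S, S ⊆ S₀ → ∀ x ∈ S, x ∈ e → b * #(C (S.erase x)) ≤ #(C S)

/-- the numerical condition under which a set of size `m` is bad with probability at most `κ` -/
def BB (m : ℕ) (b κ : ℝ) : Prop :=
  ∃ n0 : ℕ, n0 + 1 ≤ m ∧
    ((m ≤ 2 * n0 + 1 ∧ ((m - 1).choose n0 : ℝ) * n0 ^ (m - n0) / b ^ (m - n0 - 1) ≤ κ) ∨
      (2 ≤ n0 ∧ ((m - 1).choose n0 : ℝ) * n0 ^ (m - n0) / b ^ (m - n0 - 1) +
        m * (1 + 2 / b) ^ (m - 1) / (n0.choose 2 : ℝ) ≤ κ))

/-- neighbours in `H` -/
def nbH (G : SimpleGraph V) [DecidableRel G.Adj] (H : Finset V) (w : V) : Finset V :=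
  (G.neighborFinset w).filter fun x => x ∈ H

/-- `w` demands a unique colour on `nbH G H w` already after stage H -/
def Dem (G : SimpleGraph V) [DecidableRel G.Adj] (H : Finset V) (w : V) : Prop :=
  3 ≤ #(nbH G H w) ∨ (w ∉ H ∧ #(nbH G H w) = 2)

theorem res_apply_mem {d : α} {S : Finset V} {φ : V → α} {v : V} (h : v ∈ S) :
    res d S φ v = φ v := if_pos h

theorem res_apply_not {d : α} {S : Finset V} {φ : V → α} {v : V} (h : v ∉ S) :
    res d S φ v = d := if_neg h

theorem hasUniq_congr {e : Finset V} {φ ψ : V → α} (h : ∀ x ∈ e, φ x = ψ x) :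
    HasUniq e φ ↔ HasUniq e ψ := by
  unfold HasUniq
  constructor
  · rintro ⟨z, hz⟩
    refine ⟨z, ?_⟩
    rw [← hz]
    congr 1
    apply filter_congr
    intro x hx
    rw [h x hx]
  · rintro ⟨z, hz⟩
    refine ⟨z, ?_⟩
    rw [← hz]
    congr 1
    apply filter_congr
    intro x hx
    rw [h x hx]

/-- removing a set `Y ⊆ e` from `S` costs a factor `b ^ #Y` -/
theorem removal {C : Finset V → Finset (V → α)} {e S₀ : Finset V} {b : ℝ} (hb : 0 ≤ b)
    (hg : Grow C e S₀ b) (Y : Finset V) :
    Y ⊆ e → ∀ S, S ⊆ S₀ → Y ⊆ S → b ^ #Y * #(C (S \ Y)) ≤ #(C S) := by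
  classical
  induction Y using Finset.induction_on with
  | empty =>
    intro _ S _ _
    simp
  | insert y Y hy ih =>
    intro hYe S hS hYS
    have hye : y ∈ e := hYe (mem_insert_self _ _)
    have hyS : y ∈ S := hYS (mem_insert_self _ _)
    have h1 := ih (fun x hx => hYe (mem_insert_of_mem hx)) S hS
      (fun x hx => hYS (mem_insert_of_mem hx))
    have h2 := hg (S \ Y) (sdiff_subset.trans hS) y (mem_sdiff.mpr ⟨hyS, hy⟩) hye
    have h3 : S \ insert y Y = (S \ Y).erase y := by
      ext x
      simp only [mem_sdiff, mem_insert, mem_erase]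
      tauto
    rw [card_insert_of_notMem hy, h3, pow_succ, mul_assoc]
    exact (mul_le_mul_of_nonneg_left h2 (pow_nonneg hb _)).trans h1

end Pool.Agent.Helper60.PCF
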